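import Pool.Agent.H71.PX.Targets

set_option autoImplicit false

namespace Pool.Agent.H70.PX.A1

open Pool.Agent.H71.PX Pool.Agent.H8.PL

theorem pf_A1 : T_A1 := by
  classical
  intro Q U Hh Vv n m hn h
  choose f hf using h
  have irr : ∀ x, ¬ m.Lt x x := fun x => (hf x x).1
  have tri : ∀ x z, x = z ∨ m.Lt x z ∨ m.Lt z x := fun x z => (hf x z).2.1
  have zr : ∀ x z, m.Zr z → ¬ m.Lt x z := fun x z => (hf x z).2.2.1
  have tp : ∀ x z, m.Tp x → ¬ m.Lt x z := fun x z => (hf x z).2.2.2.1
  have tz : ∀ x, m.Tp x → m.Zr (f x) := fun x => (hf x x).2.2.2.2.1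
  have st : ∀ x z, ¬ m.Tp x → (m.Lt x z ↔ z = f x ∨ m.Lt (f x) z) :=
    fun x z => (hf x z).2.2.2.2.2.1
  have ex : ∀ x z, ∃ q, m.T q x z := fun x z => (hf x z).2.2.2.2.2.2.1
  have uu : ∀ x z q, m.T q x z → ∀ b1 b2 b3 b4 : Bool, (b1 = true ↔ m.Zr x) →
      (b2 = true ↔ m.Tp x) → (b3 = true ↔ m.Zr z) → (b4 = true ↔ m.Tp z) → U b1 b2 b3 b4 q :=
    fun x z => (hf x z).2.2.2.2.2.2.2.1
  have hv : ∀ x z, ¬ m.Tp x → ∀ q q', (m.T q x z → m.T q' (f x) z → Hh q q') ∧
      (m.T q z x → m.T q' z (f x) → Vv q q') := fun x z => (hf x z).2.2.2.2.2.2.2.2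
  set r : Fin n → ℕ := fun x => (Finset.univ.filter (fun z => m.Lt x z)).card with hr
  have r1 : ∀ x, ¬ m.Tp x → r x = r (f x) + 1 := by
    intro x hx
    have e : Finset.univ.filter (fun z => m.Lt x z) =
        insert (f x) (Finset.univ.filter (fun z => m.Lt (f x) z)) := by
      ext z
      simp only [Finset.mem_filter, Finset.mem_univ, true_and, Finset.mem_insert]
      exact st x z hx
    have hni : f x ∉ Finset.univ.filter (fun z => m.Lt (f x) z) := by
      simp only [Finset.mem_filter, Finset.mem_univ, true_and]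
      exact irr (f x)
    simp only [hr]
    rw [e, Finset.card_insert_of_notMem hni]
  have r0 : ∀ x, m.Tp x → r x = 0 := by
    intro x hx
    simp only [hr]
    rw [Finset.card_eq_zero, Finset.filter_eq_empty_iff]
    intro z _
    exact tp x z hx
  have lc : ∀ k x, r x = k → ∀ z, m.Lt x z → r z < r x := by
    intro k
    induction k with
    | zero =>
      intro x hx z hz
      have h1 : z ∈ Finset.univ.filter (fun z => m.Lt x z) := by
        simp only [Finset.mem_filter, Finset.mem_univ, true_and]
        exact hz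
      have h2 : Finset.univ.filter (fun z => m.Lt x z) = ∅ := Finset.card_eq_zero.mp hx
      rw [h2] at h1
      exact absurd h1 (Finset.notMem_empty z)
    | succ k ih =>
      intro x hx z hz
      have hx1 : ¬ m.Tp x := fun hh => tp x z hh hz
      have h1 := r1 x hx1
      rcases (st x z hx1).mp hz with h2 | h2
      · rw [h2]
        omega
      · have h3 := ih (f x) (by omega) z h2
        omega
  have lt_r : ∀ x z, m.Lt x z → r z < r x := fun x z hz => lc (r x) x rfl z hz
  have inj : ∀ x z, r x = r z → x = z := by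
    intro x z hxz
    rcases tri x z with h1 | h1 | h1
    · exact h1
    · have := lt_r x z h1
      omega
    · have := lt_r z x h1
      omega
  have bd : ∀ x, r x < n := by
    intro x
    have h1 : x ∉ Finset.univ.filter (fun z => m.Lt x z) := by
      simp only [Finset.mem_filter, Finset.mem_univ, true_and]
      exact irr x
    have h2 := Finset.card_lt_univ_of_notMem h1
    rw [Fintype.card_fin] at h2
    exact h2
  set p : Fin n → ℕ := fun x => n - 1 - r x with hp
  have pn : ∀ x, p x < n := fun x => by simp only [hp]; omega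
  have pr : ∀ x, p x + r x + 1 = n := fun x => by
    have := bd x
    simp only [hp]
    omega
  have pinj : ∀ x z, p x = p z → x = z := by
    intro x z hxz
    apply inj
    have h1 := pr x
    have h2 := pr z
    omega
  have surj : ∀ k, k < n → ∃ x, p x = k := by
    intro k hk
    have hi : Function.Injective (fun x : Fin n => (⟨p x, pn x⟩ : Fin n)) := by
      intro x z hxz
      apply pinj
      exact congrArg Fin.val hxz
    obtain ⟨x, hx⟩ := (Finite.injective_iff_surjective.mp hi) ⟨k, hk⟩
    exact ⟨x, congrArg Fin.val hx⟩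
  have tpp : ∀ x, m.Tp x ↔ p x + 1 = n := by
    intro x
    constructor
    · intro hx
      have h1 := r0 x hx
      have h2 := pr x
      omega
    · intro hx
      by_contra hc
      have h1 := r1 x hc
      have h2 := pr x
      omega
  have zp1 : ∀ x, m.Zr x → p x = 0 := by
    intro x hx
    by_contra hc
    obtain ⟨x0, hx0⟩ := surj 0 hn
    rcases tri x x0 with h1 | h1 | h1
    · rw [h1] at hc
      exact hc hx0
    · have h2 := lt_r x x0 h1
      have h3 := pr x
      have h4 := pr x0
      omega
    · exact zr x0 x hx h1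
  have zpp : ∀ x, m.Zr x ↔ p x = 0 := by
    intro x
    constructor
    · exact zp1 x
    · intro hx
      obtain ⟨x1, hx1⟩ := surj (n - 1) (by omega)
      have h1 : m.Tp x1 := (tpp x1).mpr (by omega)
      have h2 := tz x1 h1
      have h3 := zp1 _ h2
      have h4 : x = f x1 := pinj _ _ (by omega)
      rw [h4]
      exact h2
  have pf : ∀ x, ¬ m.Tp x → p (f x) = p x + 1 := by
    intro x hx
    have h1 := r1 x hx
    have h2 := pr x
    have h3 := pr (f x)
    omega
  have hX : ∀ k, ∃ x : Fin n, k < n → p x = k := by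
    intro k
    by_cases hk : k < n
    · obtain ⟨x, hx⟩ := surj k hk
      exact ⟨x, fun _ => hx⟩
    · exact ⟨⟨0, hn⟩, fun hh => absurd hh hk⟩
  choose X hX using hX
  choose τ hτ using ex
  refine ⟨fun i j => τ (X i) (X j), ?_, ?_, ?_⟩
  · intro x hx y hy
    apply uu (X x) (X y) _ (hτ _ _)
    · rw [decide_eq_true_iff, zpp, hX x hx]
    · rw [decide_eq_true_iff, tpp, hX x hx]
    · rw [decide_eq_true_iff, zpp, hX y hy]
    · rw [decide_eq_true_iff, tpp, hX y hy]
  · intro x y hx hy
    have h1 : p (X x) = x := hX x (by omega)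
    have h2 : ¬ m.Tp (X x) := fun hh => by
      have := (tpp _).mp hh
      omega
    have h3 : X (x + 1) = f (X x) := by
      apply pinj
      rw [pf _ h2, hX (x + 1) hx, h1]
    have h4 := (hv (X x) (X y) h2 (τ (X x) (X y)) (τ (X (x + 1)) (X y))).1 (hτ _ _)
    apply h4
    rw [h3]
    exact hτ _ _
  · intro x y hx hy
    have h1 : p (X y) = y := hX y (by omega)
    have h2 : ¬ m.Tp (X y) := fun hh => by
      have := (tpp _).mp hh
      omega
    have h3 : X (y + 1) = f (X y) := by
      apply pinj
      rw [pf _ h2, hX (y + 1) hy, h1]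
    have h4 := (hv (X y) (X x) h2 (τ (X x) (X y)) (τ (X x) (X (y + 1)))).2 (hτ _ _)
    apply h4
    rw [h3]
    exact hτ _ _

end Pool.Agent.H70.PX.A1
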