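import Pool.Agent.H70.PX.Hlm

/-!
# The part of `hlang k` of even length and its complement are in the level `k + 1`
-/

set_option autoImplicit false

namespace Pool.Agent.H70.PX

open Finset Pool.Agent.H6.NB Pool.Agent.H70.OQ Pool.Agent.H70.PW Pool.Agent.H62.PW.GLM

/-- the decision tree of a machine which looks for a special string with the property `C` -/
def trc (C : List Bool → Bool) (D : Bool) : List (List Bool) → ℕ → DT
  | [], _ => DT.leaf false
  | u :: vs, n => if D then DT.leaf true else if u.length = n ∧ C u = true then
      chk false (2 * u.length) (false :: u) vs else DT.leaf false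

theorem trc_depth (C : List Bool → Bool) (D : Bool) (ws : List (List Bool)) (n : ℕ) :
    (trc C D ws n).depth ≤ 1 := by
  cases ws with
  | nil => simp [trc, DT.depth]
  | cons u vs =>
    simp only [trc]
    split_ifs
    · simp [DT.depth]
    · exact chk_depth _ _ _ _
    · simp [DT.depth]

/-- the machine: accept if `D` holds or there is a special string of the same length with the property
`C` -/
def machc (k : ℕ) (C D : List Bool → Bool) : Machine (k + 1) where
  c := 2 ^ (k + 2)
  tree := fun x ws => trc C (D x) ws x.length
  depth_le := by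
    intro x ws _ _
    exact (trc_depth _ _ _ _).trans ((Nat.le_add_left 1 _).trans (arith k _))
  short := by
    intro x ws hws _
    cases ws with
    | nil => trivial
    | cons u vs =>
      rw [List.length_cons, Nat.add_right_cancel_iff] at hws
      simp only [trc]
      split_ifs with hD h
      · trivial
      · apply chk_short
        have h2 := arith k x.length
        rw [List.length_cons, hws, h.1]
        have h3 : 2 ^ k * (2 * x.length) = 2 ^ (k + 1) * x.length := by rw [pow_succ]; ring
        rw [h3]
        omega
      · trivial

theorem machc_lang (k : ℕ) (C D : List Bool → Bool) (O : List Bool → Bool) (x : List Bool) :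
    x ∈ (machc k C D).lang O ↔
      (D x = true ∨ ∃ u : List Bool, u.length = x.length ∧ C u = true ∧ Special k O u) := by
  have hR0 : (fun w : List Bool => w.length ≤ x.length ^ (machc k C D).c + (machc k C D).c) [] :=
    Nat.zero_le _
  change (∃ u : List Bool, u.length ≤ x.length ^ (machc k C D).c + (machc k C D).c ∧
    Alt (fun w => w.length ≤ x.length ^ (machc k C D).c + (machc k C D).c) false k
      (fun vs => (trc C (D x) (u :: vs) x.length).eval O = true)) ↔ _
  by_cases hD : D x = true
  · have h1 : ∀ u : List Bool, (fun vs => (trc C (D x) (u :: vs) x.length).eval O = true) =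
        fun _ => true = true := by
      intro u
      funext vs
      simp only [trc, hD, if_true, DT.eval]
    constructor
    · exact fun _ => .inl hD
    · intro _
      refine ⟨[], hR0, ?_⟩
      rw [h1, (alt_const hR0 _ k).2]
  · rw [Bool.not_eq_true] at hD
    have h0 : (D x = true ∨ ∃ u : List Bool, u.length = x.length ∧ C u = true ∧ Special k O u) ↔
        ∃ u : List Bool, u.length = x.length ∧ C u = true ∧ Special k O u := by
      rw [hD]; simp
    rw [h0]
    refine exists_congr fun u => ?_
    by_cases h : u.length = x.length ∧ C u = true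
    · have h1 : (fun vs => (trc C (D x) (u :: vs) x.length).eval O = true) =
          fun vs => (chk false (2 * u.length) (false :: u) vs).eval O = true := by
        funext vs
        simp only [trc, hD, Bool.false_eq_true, if_false, if_pos h]
      have hc := arith k x.length
      have h5 : 2 ^ k * (2 * u.length) = 2 ^ (k + 1) * x.length := by rw [pow_succ, h.1]; ring
      rw [h1, (alt_chk O k (2 * u.length) (false :: u) (fun v hv => ?_)).2]
      · constructor
        · rintro ⟨-, h2⟩
          exact ⟨h.1, h.2, h2⟩
        · rintro ⟨-, -, h2⟩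
          refine ⟨?_, h2⟩
          rw [h.1]
          change x.length ≤ x.length ^ 2 ^ (k + 2) + 2 ^ (k + 2)
          have h6 : x.length ≤ 2 ^ (k + 1) * x.length :=
            Nat.le_mul_of_pos_left _ (Nat.two_pow_pos _)
          omega
      · change v.length ≤ x.length ^ 2 ^ (k + 2) + 2 ^ (k + 2)
        rw [h5] at hv
        omega
    · have h1 : (fun vs => (trc C (D x) (u :: vs) x.length).eval O = true) =
          fun _ => false = true := by
        funext vs
        simp only [trc, hD, Bool.false_eq_true, if_false, if_neg h, DT.eval]
      rw [h1, (alt_const hR0 _ k).2]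
      constructor
      · rintro ⟨-, h2⟩
        exact absurd h2 Bool.false_ne_true
      · rintro ⟨h2, h3, -⟩
        exact absurd ⟨h2, h3⟩ h

/-- The complement of the part of `hlang k O` of even length is in the level `k + 1`. -/
theorem evn_compl (k : ℕ) : ∃ E E' : Machine (k + 1), ∀ O, OneSpecialE k O →
    E.lang O = {x | x ∈ hlang k O ∧ Even x.length} ∧ E'.lang O = (E.lang O)ᶜ := by
  classical
  refine ⟨machc k (fun u => decide (u.head? = some true ∧ Even u.length)) fun _ => false,
    machc k (fun u => decide (u.head? ≠ some true)) fun x => decide (¬ Even x.length),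
    fun O hO => ?_⟩
  have h1 : (machc k (fun u => decide (u.head? = some true ∧ Even u.length))
      fun _ => false).lang O = {x | x ∈ hlang k O ∧ Even x.length} := by
    ext x
    rw [machc_lang]
    simp only [Bool.false_eq_true, false_or, decide_eq_true_eq]
    constructor
    · rintro ⟨u, hu, ⟨h1, h2⟩, h3⟩
      exact ⟨⟨u, hu, h1, h3⟩, by rw [← hu]; exact h2⟩
    · rintro ⟨⟨u, hu, h1, h3⟩, h2⟩
      exact ⟨u, hu, ⟨h1, by rw [hu]; exact h2⟩, h3⟩
  refine ⟨h1, ?_⟩
  rw [h1]
  ext x
  rw [machc_lang]
  simp only [decide_eq_true_eq, ne_eq]
  constructor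
  · rintro (h | ⟨u, hu, h2, h3⟩) ⟨⟨v, hv, h4, h5⟩, h6⟩
    · exact h h6
    · obtain ⟨w, -, hw⟩ := hO x.length h6
      have e1 := hw u ⟨hu, h3⟩
      have e2 := hw v ⟨hv, h5⟩
      exact h2 (by rw [e1, ← e2]; exact h4)
  · intro h
    by_cases hx : Even x.length
    · right
      obtain ⟨u, ⟨hu, hs⟩, -⟩ := hO x.length hx
      refine ⟨u, hu, fun h2 => h ⟨⟨u, hu, h2, hs⟩, hx⟩, hs⟩
    · exact .inl hx

end Pool.Agent.H70.PX
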