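import Pool.Agent.H70.PX.Wfm

/-!
# The instances as formulas, for tables of another level
-/

set_option autoImplicit false

namespace Pool.Agent.H70.PX

open Finset Pool.Agent.H6.NB Pool.Agent.H70.OQ Pool.Agent.H48.OQ.FMG

open Classical in
/-- The instances of the universal machine with `k` quantifiers as formulas in the positions of a table of
level `J`. -/
theorem fgg (h1 : T_CLH) (h2 : Pool.Agent.H6.NB.T_COD) (h3 : Pool.Agent.H6.NB.T_LVL)
    (h4 : Pool.Agent.H6.NB.T_FIS) (k J : ℕ) (hkJ : k ≤ J) (prog : List Bool → List (List Bool) → DT)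
    (n a t : ℕ) (o : List Bool → Bool) (hprog : Smallk k prog) (hn : 2 ≤ n)
    (hnt : n ^ 2 ^ a ≤ t ^ 2) :
    ∃ D : Om n (2 ^ a) → (Cg J n (2 ^ a) → Bool) → Bool,
      Syg D (fun s => lv n s.1) (2 ^ t) t J a ∧
      ∀ (s : Om n (2 ^ a)) T e P, (acck k prog s.1 (fun w => vlG T e P (clg J n (2 ^ a) o w)) ↔
        accG D P s T e = true) := by
  have hlen : ∀ s : Om n (2 ^ a), s.1.length < t ^ 2 := fun s => lt_of_lt_of_le s.2.2 hnt
  have ht : 1 ≤ t := by
    by_contra h
    have ht0 : t = 0 := by omega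
    subst ht0
    have : 0 < n ^ 2 ^ a := by positivity
    omega
  obtain ⟨Ws, hW1, hW2⟩ := h4.1 (t - 1)
  rw [Nat.sub_add_cancel ht] at hW1
  have hsq : ∀ (s : Om n (2 ^ a)) (x : ℕ), x ^ 2 ≤ s.1.length → x < t := by
    intro s x hx
    by_contra hcon
    push Not at hcon
    have := Nat.pow_le_pow_left hcon 2
    have := hlen s
    omega
  refine ⟨fun s y => decide (acck k prog s.1 (fun w => y (clg J n (2 ^ a) o w))), ⟨?_, ?_, ?_⟩, ?_⟩
  · intro s
    have := (alt_fm (V := Cg J n (2 ^ a)) (fun w => w.length ^ 2 ≤ s.1.length) t Ws hW1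
      (fun w hw => hW2 w (by have := hsq s _ hw; omega)) k
      (fun ws y => (prog s.1 ws).eval (fun w => y (clg J n (2 ^ a) o w)) = true) (by
        intro ws hl hws
        refine ⟨cv (clg J n (2 ^ a) o) (prog s.1 ws), ?_, fun y => ?_⟩
        · rw [cv_depth]
          exact (hsq s _ (hprog s.1 ws hl hws).1).le
        · rw [cv_eval])).1
    have h5 := fm_add Nat.one_le_two_pow (J - k) this
    rw [Nat.add_sub_cancel' hkJ] at h5
    exact h5
  · intro s y y' hy
    rw [decide_eq_decide]
    unfold acck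
    refine alt_congr _ k true _ _ (fun ws hl hws => ?_)
    obtain ⟨-, m, hm, hsh⟩ := hprog s.1 ws hl hws
    rw [evc (prog s.1 ws) m (fun w => y (clg J n (2 ^ a) o w))
      (fun w => y' (clg J n (2 ^ a) o w)) hsh]
    intro w hw
    exact hy _ (low_clg h1 h3 h2 hn o s w m hm hw)
  · intro s
    exact (h3 n a hn).2 s
  · intro s T e P
    simp only [accG, decide_eq_true_eq]

end Pool.Agent.H70.PX
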