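import Pool.Agent.H62.PW.GLM

/-!
# The language `hlang k` is in the level `k + 1`
-/

set_option autoImplicit false

namespace Pool.Agent.H70.PX

open Finset Pool.Agent.H6.NB Pool.Agent.H70.OQ Pool.Agent.H70.PW Pool.Agent.H62.PW.GLM

/-- the decision tree of the machine -/
def trh (y : List Bool) : List (List Bool) → DT
  | [] => DT.leaf false
  | u :: vs => if u.length = y.length ∧ u.head? = some true then
      chk false (2 * u.length) (false :: u) vs else DT.leaf false

/-- the machine -/
def machh (k : ℕ) : Machine (k + 1) where
  c := 2 ^ (k + 2)
  tree := trh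
  depth_le := by
    intro x ws _ _
    have h1 : 1 ≤ x.length ^ 2 ^ (k + 2) + 2 ^ (k + 2) := (Nat.le_add_left 1 _).trans (arith k _)
    cases ws with
    | nil => simp [trh, DT.depth]
    | cons u vs =>
      simp only [trh]
      split_ifs
      · exact (chk_depth _ _ _ _).trans h1
      · simp [DT.depth]
  short := by
    intro x ws hws _
    cases ws with
    | nil => trivial
    | cons u vs =>
      rw [List.length_cons, Nat.add_right_cancel_iff] at hws
      simp only [trh]
      split_ifs with h
      · apply chk_short
        have h2 := arith k x.length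
        rw [List.length_cons, hws, h.1]
        have h3 : 2 ^ k * (2 * x.length) = 2 ^ (k + 1) * x.length := by rw [pow_succ]; ring
        rw [h3]
        omega
      · trivial

/-- The language `hlang k` is in the level `k + 1`. -/
theorem hlm (k : ℕ) (O : List Bool → Bool) : (machh k).lang O = hlang k O := by
  ext y
  have hR0 : (fun w : List Bool => w.length ≤ y.length ^ (machh k).c + (machh k).c) [] :=
    Nat.zero_le _
  change (∃ u : List Bool, u.length ≤ y.length ^ (machh k).c + (machh k).c ∧
    Alt (fun w => w.length ≤ y.length ^ (machh k).c + (machh k).c) false k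
      (fun vs => (trh y (u :: vs)).eval O = true)) ↔
    ∃ u : List Bool, u.length = y.length ∧ u.head? = some true ∧ Special k O u
  refine exists_congr fun u => ?_
  by_cases h : u.length = y.length ∧ u.head? = some true
  · have h1 : (fun vs => (trh y (u :: vs)).eval O = true) =
        fun vs => (chk false (2 * u.length) (false :: u) vs).eval O = true := by
      funext vs
      simp only [trh, if_pos h]
    have hc := arith k y.length
    have h5 : 2 ^ k * (2 * u.length) = 2 ^ (k + 1) * y.length := by rw [pow_succ, h.1]; ring
    rw [h1, (alt_chk O k (2 * u.length) (false :: u) (fun v hv => ?_)).2]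
    · constructor
      · rintro ⟨-, h2⟩
        exact ⟨h.1, h.2, h2⟩
      · rintro ⟨-, -, h2⟩
        refine ⟨?_, h2⟩
        rw [h.1]
        change y.length ≤ y.length ^ 2 ^ (k + 2) + 2 ^ (k + 2)
        have h6 : y.length ≤ 2 ^ (k + 1) * y.length :=
          Nat.le_mul_of_pos_left _ (Nat.two_pow_pos _)
        omega
    · change v.length ≤ y.length ^ 2 ^ (k + 2) + 2 ^ (k + 2)
      rw [h5] at hv
      omega
  · have h1 : (fun vs => (trh y (u :: vs)).eval O = true) = fun _ => false = true := by
      funext vs
      simp only [trh, if_neg h, DT.eval]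
    rw [h1, (alt_const hR0 _ k).2]
    constructor
    · rintro ⟨-, h2⟩
      exact absurd h2 Bool.false_ne_true
    · rintro ⟨h2, h3, -⟩
      exact absurd ⟨h2, h3⟩ h

end Pool.Agent.H70.PX
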