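import Pool.Agent.H70.PX.Sgc
import Pool.Agent.H70.PX.Hlm
import Pool.Agent.H70.PW.All

/-!
# BQP contains exactly the first k levels of an infinite hierarchy
-/

set_option autoImplicit false

namespace Pool.Agent.H70.PX

open Filter Pool.Agent.H6.NB Pool.Agent.H70.OQ Pool.Agent.H70.PW

theorem pf_SGC : T_SGC :=
  sgc pf_EXJ pf_TBL pf_BLG pf_BUG pf_CLH pf_NST pf_COD pf_LKG Pool.Agent.H6.NB.pf_LVL pf_LAK
    Pool.Agent.H6.NB.pf_FIS Pool.Agent.H6.NB.pf_NUM pf_PRG Pool.Agent.H6.NB.pf_L12 pf_EXG pf_MEG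
    pf_NDV pf_SPC

/-- The stage for a machine with `L` quantifiers. -/
theorem sgcL (k L : ℕ) (hL : k + 1 ≤ L) (prog : List Bool → List (List Bool) → DT)
    (hs : Smallk (k + 1) prog) (W : Machine L) : ∀ᶠ n : ℕ in atTop,
    ∀ σ₀ : List Bool → Bool, (∀ s, Dec σ₀ s) → ∃ (σ : List Bool → Bool) (m : ℕ),
      (∀ w, w.length < n → σ w = σ₀ w) ∧ (∀ s, Dec σ s) ∧
      (∀ w : List Bool, w.length ≠ (2 ^ (L + 1) - 1) * n → σ (false :: w) = σ₀ (false :: w)) ∧
      ∀ σ' O, (∀ w, w.length ≤ m → σ' w = σ w) → Bldg (acck (k + 1) prog) σ' O →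
        ¬ (List.replicate n false ∈ W.lang O ↔ List.replicate n false ∈ hlang L O) := by
  obtain ⟨J, rfl⟩ : ∃ J, L = J + 1 := ⟨L - 1, by omega⟩
  filter_upwards [pf_SGC k J W.c (by omega) prog hs] with n hn
  exact hn W rfl

theorem odd_pow (L n : ℕ) (hn : ¬ Even n) : ¬ Even ((2 ^ (L + 1) - 1) * n) := by
  rw [Nat.not_even_iff_odd] at hn ⊢
  refine Odd.mul ?_ hn
  exact Nat.Even.sub_odd Nat.one_le_two_pow (by simp [Nat.even_pow]) odd_one

/-- The machine `W i` errs on `0ⁿ`. -/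
def Bc {l : ℕ → ℕ} (W : ∀ i, Machine (l i)) (i n : ℕ) (O : List Bool → Bool) : Prop :=
  ¬ (List.replicate n false ∈ (W i).lang O ↔ List.replicate n false ∈ hlang (l i) O)

/-- The oracle. -/
theorem exact_levels (k : ℕ) (hk : 1 ≤ k) (V : ℕ → Machine k) (Q : ℕ → List Bool → QAlg)
    (l : ℕ → ℕ) (W : ∀ i, Machine (l i)) (hl : ∀ i, k ≤ l i)
    (hQ : ∀ j, ∃ (c C : ℕ) (ε : ℝ), 0 < ε ∧ ∀ x : List Bool, (Q j x).Short (x.length ^ c + c) ∧
      ((Q j x).T : ℝ) ≤ C * 2 ^ ((1 / 2 - ε) * x.length)) :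
    ∃ O : List Bool → Bool,
      (∀ i x, (x ∈ (V i).lang O → 2 / 3 ≤ yesProb O (inst (V i).c i x)) ∧
        (x ∉ (V i).lang O → yesProb O (inst (V i).c i x) ≤ 1 / 3)) ∧
      OneSpecialE k O ∧
      (∀ j m, ∃ n ≥ m, Even n ∧
        ¬ Correct (Q j (List.replicate n false)) O (hlang k O) (List.replicate n false)) ∧
      ∀ i m, ∃ n ≥ m, ¬ (List.replicate n false ∈ (W i).lang O ↔
        List.replicate n false ∈ hlang (l i) O) := by
  obtain ⟨k, rfl⟩ : ∃ k', k = k' + 1 := ⟨k - 1, by omega⟩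
  obtain ⟨prog, hs, hp⟩ := pf_UNG (k + 1) V
  have hA : LocA (acck (k + 1) prog) := pf_LAK (k + 1) prog hs
  obtain ⟨σ, O, hB, hZ, hE⟩ := pf_LIM (acck (k + 1) prog) (List Bool ⊕ ℕ)
    (fun z σ => match z with
      | .inl s => Dec σ s
      | .inr n => Even n → ∃! u : List Bool, u.length = n ∧ Special (k + 1) σ u)
    (fun i n O => if i % 2 = 0 then Even n ∧
        ¬ Correct (Q (i / 2) (List.replicate n false)) O (hlang (k + 1) O) (List.replicate n false)
      else Bc W (i / 2) n O) hA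
    (by
      rintro (s | n)
      · obtain ⟨l, hl⟩ := Pool.Agent.H6.NB.pf_DCC s
        exact ⟨l, fun σ σ' h => (hl σ σ' h).1⟩
      · refine ⟨(2 ^ (k + 1 + 1) - 1) * n + 1, fun σ σ' h hσ hn => ?_⟩
        have h1 : ∀ u : List Bool, u.length = n →
            (Special (k + 1) σ' u ↔ Special (k + 1) σ u) := fun u hu =>
          (pf_SPC (k + 1) σ σ' u fun w hw => h _ (by
            rw [List.length_cons, hw, hu])).symm
        obtain ⟨u, hu, hu2⟩ := hσ hn
        exact ⟨u, ⟨hu.1, (h1 u hu.1).2 hu.2⟩, fun v hv => hu2 v ⟨hv.1, (h1 v hv.1).1 hv.2⟩⟩)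
    (by
      obtain ⟨σ, hσ, hσ2⟩ := pf_ING (k + 1)
      refine ⟨σ, ?_⟩
      rintro (s | n)
      · exact hσ s
      · exact fun _ => hσ2 n)
    (fun i => by
      by_cases hi : i % 2 = 0
      · simp only [hi, if_true]
        obtain ⟨c, C, ε, hε, hC⟩ := hQ (i / 2)
        have hev : ∃ᶠ n : ℕ in atTop, Even n :=
          frequently_atTop.2 fun m => ⟨2 * m, by omega, even_two_mul m⟩
        refine (hev.and_eventually (pf_SGA k c C ε hε prog hs)).mono fun n ⟨hn, h⟩ σ₀ hσ => ?_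
        obtain ⟨h0, h0'⟩ := hC (List.replicate n false)
        rw [List.length_replicate] at h0 h0'
        obtain ⟨σ, m, h1, h2, h3, h4, h5⟩ := h _ h0 h0' σ₀ fun s => hσ (.inl s)
        refine ⟨σ, m, h1, ?_, fun σ' O' e hB => ⟨hn, h5 σ' O' e hB⟩⟩
        rintro (s | n')
        · exact h2 s
        · intro hn'
          by_cases hnn : n' = n
          · subst hnn
            exact h4
          · obtain ⟨u, hu, hu2⟩ := hσ (.inr n') hn'
            exact ⟨u, ⟨hu.1, (h3 u (by rw [hu.1]; exact hnn)).2 hu.2⟩, fun v hv =>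
              hu2 v ⟨hv.1, (h3 v (by rw [hv.1]; exact hnn)).1 hv.2⟩⟩
      · simp only [hi, if_false]
        have hev : ∃ᶠ n : ℕ in atTop, ¬ Even n :=
          frequently_atTop.2 fun m => ⟨2 * m + 1, by omega, by simp⟩
        refine (hev.and_eventually (sgcL k _ (hl (i / 2)) prog hs (W (i / 2)))).mono
          fun n ⟨hn, h⟩ σ₀ hσ => ?_
        obtain ⟨σ, m, h1, h2, h3, h4⟩ := h σ₀ fun s => hσ (.inl s)
        refine ⟨σ, m, h1, ?_, h4⟩
        rintro (s | n')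
        · exact h2 s
        · intro hn'
          have hsp : ∀ u : List Bool, u.length = n' →
              (Special (k + 1) σ u ↔ Special (k + 1) σ₀ u) := by
            intro u hu
            refine pf_SPC (k + 1) σ σ₀ u fun w hw => h3 w fun he => ?_
            rw [hu] at hw
            refine odd_pow (l (i / 2)) n hn ?_
            rw [← he, hw]
            exact hn'.mul_left _
          obtain ⟨u, hu, hu2⟩ := hσ (.inr n') hn'
          exact ⟨u, ⟨hu.1, (hsp u hu.1).2 hu.2⟩, fun v hv =>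
            hu2 v ⟨hv.1, (hsp v hv.1).1 hv.2⟩⟩)
  refine ⟨O, fun i x => ?_, ?_, fun j m => ?_, fun i m => ?_⟩
  · have h1 := pf_YEG (acck (k + 1) prog) σ O (inst (V i).c i x) hB (hZ (.inl _))
    exact ⟨fun hx => h1.1 ((hp i x O).1 hx), fun hx => h1.2 fun ha => hx ((hp i x O).2 ha)⟩
  · intro n hn
    obtain ⟨u, hu, hu2⟩ := hZ (.inr n) hn
    have h1 := fun u => Pool.Agent.H70.OQ.SGG.special_bld pf_SPC hB (k + 1) u
    exact ⟨u, ⟨hu.1, (h1 u).2 hu.2⟩, fun v hv => hu2 v ⟨hv.1, (h1 v).1 hv.2⟩⟩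
  · obtain ⟨n, hn, h⟩ := hE (2 * j) m
    have e1 : 2 * j % 2 = 0 := by omega
    have e2 : 2 * j / 2 = j := by omega
    simp only [e1, if_true, e2] at h
    exact ⟨n, hn, h⟩
  · obtain ⟨n, hn, h⟩ := hE (2 * i + 1) m
    have e1 : ¬ (2 * i + 1) % 2 = 0 := by omega
    have e2 : (2 * i + 1) / 2 = i := by omega
    simp only [e1, if_false, e2] at h
    exact ⟨n, hn, h⟩

end Pool.Agent.H70.PX
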