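import Pool.Agent.H70.PX.Fgg
import Pool.Agent.H70.PW.SGA

/-!
# One stage of the construction, for a machine
-/

set_option autoImplicit false

namespace Pool.Agent.H70.PX

open Pool.Agent.H6.NB Pool.Agent.H70.OQ Pool.Agent.H70.PW Finset Filter Pool.Agent.H70.OQ.SGG

/-- SGC: one stage of the construction, for a machine with `J + 1` quantifiers; the machines of the oracle
have `k + 1 ≤ J + 1` quantifiers. -/
def T_SGC : Prop := ∀ (k J c : ℕ), k ≤ J → ∀ prog, Smallk (k + 1) prog →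
  ∀ᶠ n : ℕ in atTop, ∀ W : Machine (J + 1), W.c = c →
  ∀ σ₀ : List Bool → Bool, (∀ s, Dec σ₀ s) →
  ∃ (σ : List Bool → Bool) (m : ℕ),
    (∀ w, w.length < n → σ w = σ₀ w) ∧ (∀ s, Dec σ s) ∧
    (∀ w : List Bool, w.length ≠ (2 ^ (J + 2) - 1) * n → σ (false :: w) = σ₀ (false :: w)) ∧
    ∀ σ' O, (∀ w, w.length ≤ m → σ' w = σ w) → Bldg (acck (k + 1) prog) σ' O →
      ¬ (List.replicate n false ∈ W.lang O ↔ List.replicate n false ∈ hlang (J + 1) O)

/-- The strings which do not belong to the table are unchanged. -/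
theorem sd_other' (hCLH : T_CLH) (hNST : T_NST) {k n a : ℕ} {σ₀ : List Bool → Bool}
    {T : Nn n k → Bool} {κ : Om n (2 ^ a) → Bool}
    {P : Blk (fun s : Om n (2 ^ a) => ns s.1) fun s => qs s.1} {w : List Bool}
    (hw : w.length ≠ (2 ^ (k + 1) - 1) * n) :
    sdg k n (2 ^ a) σ₀ T κ P (false :: w) = σ₀ (false :: w) := by
  unfold sdg
  rcases (hCLH k n (2 ^ a) σ₀).2.2.2 (false :: w) with ⟨p, h⟩ | ⟨s', h⟩ | ⟨s', i, v', h⟩ | h
  · exfalso
    have h1 : w = nstr n k p := by simpa using h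
    have h2 := (hNST n k).1 p
    rw [← h1] at h2
    exact hw h2
  · simp [key] at h
  · simp [blk] at h
  · rw [h]; rfl

theorem arith1 {n c : ℕ} (hn : 2 ≤ n) : n ^ c + c ≤ n ^ (c + 1) := by
  have h1 : c ≤ n ^ c := (Nat.lt_two_pow_self.le).trans (Nat.pow_le_pow_left hn c)
  calc n ^ c + c ≤ n ^ c * 2 := by omega
    _ ≤ n ^ c * n := Nat.mul_le_mul_left _ hn
    _ = n ^ (c + 1) := (pow_succ n c).symm

theorem arith2 {n c a t : ℕ} (hn : 2 ≤ n) (h : n ^ (4 * (c + 1)) + 4 * (c + 1) ≤ n ^ 2 ^ a)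
    (ht : n ^ 2 ^ a ≤ t ^ 2) : 3 ≤ a ∧ n ^ c + c ≤ n ^ 2 ^ a ∧ n ^ c + c + 1 ≤ t ∧
    (n ^ c + c) ^ 2 ≤ n ^ 2 ^ (a - 1) := by
  have h0 := arith1 (c := c) hn
  have h2 : 2 ≤ n ^ (c + 1) := hn.trans (Nat.le_self_pow (by omega) n)
  have h4 : (n ^ (c + 1)) ^ 4 = n ^ (4 * (c + 1)) := by rw [← pow_mul]; ring_nf
  have ha : 3 ≤ a := by
    have h5 : n ^ 4 < n ^ 2 ^ a := by
      have : n ^ 4 ≤ n ^ (4 * (c + 1)) := Nat.pow_le_pow_right (by omega) (by omega)
      omega
    have h6 : 4 < 2 ^ a := (Nat.pow_lt_pow_iff_right (by omega)).1 h5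
    by_contra hh
    have : 2 ^ a ≤ 2 ^ 2 := Nat.pow_le_pow_right (by norm_num) (by omega)
    omega
  have hsq : ((n ^ (c + 1)) ^ 2) ^ 2 ≤ n ^ 2 ^ a := by
    rw [← pow_mul]
    change (n ^ (c + 1)) ^ 4 ≤ _
    rw [h4]; omega
  have h7 : (n ^ (c + 1)) ^ 2 ≤ t :=
    (Nat.pow_le_pow_iff_left (by norm_num)).1 (hsq.trans ht)
  have h8 : (n ^ (c + 1)) ^ 2 ≤ n ^ 2 ^ (a - 1) := by
    refine (Nat.pow_le_pow_iff_left (n := 2) (by norm_num)).1 (hsq.trans (le_of_eq ?_))
    rw [← pow_mul, ← pow_succ, Nat.sub_add_cancel (by omega)]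
  have h9 : n ^ (c + 1) + 1 ≤ (n ^ (c + 1)) ^ 2 := by nlinarith
  refine ⟨ha, ?_, by omega, (Nat.pow_le_pow_left h0 2).trans h8⟩
  have h10 : (n ^ (c + 1)) ^ 2 ≤ ((n ^ (c + 1)) ^ 2) ^ 2 := Nat.le_self_pow (by norm_num) _
  omega

open Classical in
theorem sgc (h1 : T_EXJ) (hTBL : T_TBL) (h4 : T_BLG) (h5 : T_BUG)
    (h7 : T_CLH) (hNST : T_NST) (h8 : T_COD) (h9 : T_LKG) (hLVL : T_LVL) (hLAK : T_LAK)
    (h12 : T_FIS) (h13 : T_NUM) (h14 : T_PRG) (h15 : T_L12) (h16 : T_EXG) (h17 : T_MEG)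
    (hNDV : T_NDV) (hSPC : T_SPC) : T_SGC := by
  intro k J c hkJ prog hs
  have hA : LocA (acck (k + 1) prog) := hLAK (k + 1) prog hs
  obtain ⟨a, ha⟩ := h14 J (4 * (c + 1)) 1 (1 / 2) (by norm_num)
  filter_upwards [ha] with n hn W hWc σ₀ hσ
  obtain ⟨t, S', M, w', w0, w, r, K, δ, δm, hn2, hnc, hn1, hnt, hw01, htw0, hKw, herr, hPrm, hδm,
    hδ4, h2S, htS, hKM, hM1, hMS, hbig, hw1, hL, hfin⟩ := hn
  obtain ⟨ha3, hc1, hc2, hc3⟩ := arith2 hn2 hnc hnt
  have : Finite (Om n (2 ^ a)) := h12.2.1 n (2 ^ a)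
  let inst : Fintype (Om n (2 ^ a)) := Fintype.ofFinite _
  obtain ⟨hcard, hsum⟩ := h12.2.2 n (2 ^ a)
  obtain ⟨O₀, h0⟩ := h4 _ hA σ₀
  obtain ⟨D, hSys, hD⟩ := fgg h7 h8 hLVL h12 (k + 1) (J + 1) (by omega) prog n a t O₀ hs hn2 hnt
  -- the instance which is replaced
  have hs₀ : n ^ 2 ≤ (List.replicate (n ^ 2 ^ (a - 1)) false).length ∧
      (List.replicate (n ^ 2 ^ (a - 1)) false).length < n ^ 2 ^ a := by
    rw [List.length_replicate]
    constructor
    · refine Nat.pow_le_pow_right (by omega) ?_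
      calc 2 = 2 ^ 1 := by norm_num
        _ ≤ 2 ^ (a - 1) := Nat.pow_le_pow_right (by norm_num) (by omega)
    · exact Nat.pow_lt_pow_right (by omega) (Nat.pow_lt_pow_right (by norm_num) (by omega))
  let s₀ : Om n (2 ^ a) := ⟨List.replicate (n ^ 2 ^ (a - 1)) false, hs₀⟩
  have hlv₀ : lv n s₀.1 = a - 1 := by
    unfold lv
    change Nat.log 2 (Nat.log n (List.replicate (n ^ 2 ^ (a - 1)) false).length) = a - 1
    rw [List.length_replicate, Nat.log_pow (by omega), Nat.log_pow (by norm_num)]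
  have hlv : ∀ s : Om n (2 ^ a), lv n s.1 ≤ lv n s₀.1 := by
    intro s
    have := (hLVL n a hn2).2 s
    rw [hlv₀]; omega
  obtain ⟨fW, hW1, hW2, hW3⟩ := wfm h7 h8 hLVL h12 (J + 1) (J + 1) n a t O₀ W hn2
    (by rw [hWc]; exact hc2) s₀ (by
      rw [hWc]
      change _ ≤ (List.replicate (n ^ 2 ^ (a - 1)) false).length
      rw [List.length_replicate]; exact hc3)
  let D' : Om n (2 ^ a) → (Cg (J + 1) n (2 ^ a) → Bool) → Bool := Function.update D s₀ fW
  have hD'0 : D' s₀ = fW := Function.update_self _ _ _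
  have hD'1 : ∀ s, s ≠ s₀ → D' s = D s := fun s h => Function.update_of_ne h _ _
  have hSys' : Syg D' (fun s => lv n s.1) (2 ^ t) t (J + 1) a := by
    refine ⟨fun s => ?_, fun s y y' hy => ?_, hSys.lt⟩
    · by_cases h : s = s₀
      · rw [h, hD'0]; exact hW1
      · rw [hD'1 s h]; exact hSys.fm s
    · by_cases h : s = s₀
      · subst h
        rw [hD'0]; exact hW2 y y' hy
      · rw [hD'1 s h]; exact hSys.low s y y' hy
  have hX : Fintype.card (Fin n → Bool) = 2 ^ n := by simp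
  have hlen : ∀ s : Om n (2 ^ a), n ≤ s.1.length := fun s =>
    (Nat.le_self_pow (by norm_num) n).trans s.2.1
  have hq : (1 : ℝ) / 4 ≥ 2 / 2 ^ n ^ 2 := by
    have : (8 : ℝ) ≤ 2 ^ n ^ 2 := by
      calc (8 : ℝ) = 2 ^ 3 := by norm_num
        _ ≤ 2 ^ n ^ 2 := pow_le_pow_right₀ (by norm_num) (by nlinarith)
    rw [ge_iff_le, div_le_div_iff₀ (by positivity) (by norm_num)]
    linarith
  have : Nonempty (Hid (Fin n → Bool) (Ys n) (J + 1)) := hid_nonempty (J + 1)
  -- the base of the induction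
  have hw0 : (0 : ℝ) < w0 := by exact_mod_cast hw01
  have hbase : ∀ f : (Nn n (J + 1) → Bool) → Bool, Fm (2 ^ t) t (J + 1) f →
      ((univ.filter fun p : Hid (Fin n → Bool) (Ys n) (J + 1) => K 0 < (univ.filter fun x =>
        f (tabU (J + 1) p x) ≠ f (tabT (J + 1) p)).card).card : ℝ) ≤
        δ 0 * Fintype.card (Hid (Fin n → Bool) (Ys n) (J + 1)) := by
    intro f hf
    have h := hTBL (Fin n → Bool) (Ys n) J (2 ^ t) t w0 (2 ^ n) (K 0) (1 / (64 * w0)) hw01 htw0
      (by positivity) (by rw [mul_one_div, div_self (by positivity)]) hKw Nat.one_le_two_pow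
      (fun i _ => by
        have e1 : Fintype.card (Node (Fin n → Bool) (Ys n) i) = 2 ^ ((2 ^ (i + 1) - 1) * n) :=
          card_Nn n i
        rw [e1, Fintype.card_fun, Fintype.card_bool, Fintype.card_fin, ← pow_add]
        refine Nat.pow_le_pow_right (by norm_num) (le_of_eq ?_)
        have : 1 ≤ 2 ^ (i + 1) := Nat.one_le_two_pow
        obtain ⟨m, hm⟩ : ∃ m, 2 ^ (i + 1) = m + 1 := ⟨2 ^ (i + 1) - 1, by omega⟩
        rw [hm]
        simp only [Nat.add_sub_cancel]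
        ring) f hf
    refine h.trans ?_
    exact mul_le_mul_of_nonneg_right herr (by positivity)
  obtain ⟨H, κ, P, hTyp, hDec⟩ := h1 (Hid (Fin n → Bool) (Ys n) (J + 1)) (Fin n → Bool)
    (Nn n (J + 1)) (Om n (2 ^ a)) (fun s => ns s.1) (fun s => qs s.1) (fun p => tabT (J + 1) p)
    (fun p => tabU (J + 1) p) D' (fun s => lv n s.1) (2 ^ t) t (J + 1) a S' M w r K δ δm (2 ^ n - 1)
    hSys' (by rw [hX]; exact hPrm) hbase hδm (by rw [hX]; exact Nat.one_le_two_pow) h2S htS htS hKM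
    hMS (by rw [hX]; exact (Nat.mul_le_mul_right _ hcard).trans hbig)
    (fun s => by simp only [qs]; omega)
    (fun s f hf => by
      have e0 : (J + 1 + 5) * a + 2 = (J + 6) * a + 1 + 1 := by ring
      rw [e0] at hf
      have := h15 (VV (qs s.1)) S' ((J + 6) * a + 1) w' f hw1 hf
      refine this.trans ?_
      have hc : (Fintype.card (VV (qs s.1)) : ℝ) = 2 * 2 ^ qs s.1 := by
        have : Fintype.card (VV (qs s.1)) = 2 * 2 ^ qs s.1 := by simp [VV]
        rw [this]; push_cast; rfl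
      rw [hc]
      have h := hL (qs s.1) (by have := s.2.2; simp only [qs]; omega)
      have e1 : (J + 6) * a + 1 + 1 = (J + 6) * a + 2 := rfl
      rw [e1]
      linarith)
    (by
      have hδ0 : (0 : ℝ) ≤ δm := by
        have := hPrm.δ_nonneg 0
        have h3 := hδm 0 (by omega)
        linarith
      refine le_trans (mul_le_mul_of_nonneg_right (b := ((Fintype.card (Om n (2 ^ a)) : ℕ) : ℝ))
        (c := (2 : ℝ) ^ n ^ 2 ^ a) ?_ hδ0) hδ4
      exact_mod_cast hcard)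
    (by
      refine le_trans (sum_le_sum fun s _ => ?_) (hsum.trans hq)
      refine le_trans ?_ (h13 s.1).1
      refine mul_le_mul_of_nonneg_left ?_ (by positivity)
      refine div_le_div_of_nonneg_right ?_ (by positivity)
      rw [sub_add_cancel]
      exact pow_le_pow_right₀ (by norm_num) (hlen s))
    (by
      refine le_trans (sum_le_sum fun s _ => ?_) (hsum.trans hq)
      exact (h13 s.1).2)
  have hLvl := (h17 (Nn n (J + 1)) (Om n (2 ^ a)) (fun s => ns s.1)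
    (fun s => qs s.1) D (fun s => lv n s.1) (2 ^ t) t (J + 1) a hSys P).1
  have hLvl' := (h17 (Nn n (J + 1)) (Om n (2 ^ a)) (fun s => ns s.1)
    (fun s => qs s.1) D' (fun s => lv n s.1) (2 ^ t) t (J + 1) a hSys' P).1
  have hun := (h16 (Nn n (J + 1)) (Om n (2 ^ a)) (accG D P)
    (fun s => lv n s.1) a hLvl).2.1
  have hacc : ∀ s, s ≠ s₀ → accG D' P s = accG D P s := by
    intro s h
    unfold accG
    rw [hD'1 s h]
  have hupd := fun T κ => elG_upd h16 hLvl hLvl' s₀ hlv hacc T κ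
  obtain ⟨O₁, hO₁⟩ := h4 _ hA (sdg (J + 1) n (2 ^ a) σ₀ (tabT (J + 1) H) κ P)
  have hOx := fun x => h4 _ hA (sdg (J + 1) n (2 ^ a) σ₀ (tabU (J + 1) H x) κ P)
  choose O hO using hOx
  have e1 : (fun s : Om n (2 ^ a) => O₁ (key s.1)) = elG (accG D P) (tabT (J + 1) H) κ a :=
    hun (tabT (J + 1) H) κ _ (fixed h7 h9 hA hn2 h0 hO₁ hD)
  have ex1 : ∀ x, (fun s : Om n (2 ^ a) => O x (key s.1)) = elG (accG D P) (tabU (J + 1) H x) κ a :=
    fun x => hun (tabU (J + 1) H x) κ _ (fixed h7 h9 hA hn2 h0 (hO x) hD)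
  -- the value of the machine
  have hval : ∀ (T : Nn n (J + 1) → Bool) (O' : List Bool → Bool),
      Bldg (acck (k + 1) prog) (sdg (J + 1) n (2 ^ a) σ₀ T κ P) O' →
      (fun s : Om n (2 ^ a) => O' (key s.1)) = elG (accG D P) T κ a →
      (List.replicate n false ∈ W.lang O' ↔ accG D' P s₀ T (elG (accG D P) T κ a) = true) := by
    intro T O' hO' he
    have e2 : accG D' P s₀ T (elG (accG D P) T κ a) =
        fW (vlG T (fun s : Om n (2 ^ a) => O' (key s.1)) P) := by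
      rw [← he]
      change D' s₀ (vlG T (fun s : Om n (2 ^ a) => O' (key s.1)) P) = _
      rw [hD'0]
    rw [e2, hW3]
    refine lang_congr W _ _ fun w hw => ?_
    rw [hWc] at hw
    exact h9 (J + 1) _ n (2 ^ a) σ₀ O₀ O' T κ P hA hn2 h0 hO' w (hw.trans hc1)
  -- the rows for which the value changes
  have hfew : (univ.filter fun x => ¬ (List.replicate n false ∈ W.lang (O x) ↔
      List.replicate n false ∈ W.lang O₁)).card ≤ M := by
    have ht := hTyp s₀ (hSys.lt s₀)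
    refine le_trans (le_of_eq ?_) (ht.trans (hKM _ (hSys.lt s₀)))
    congr 1
    unfold dsG
    refine filter_congr fun x _ => ?_
    have ee : thG (accG D' P) (tabT (J + 1) H) (elG (accG D' P) (tabT (J + 1) H) κ a) = κ := by
      funext s
      unfold thG
      rw [(h16 (Nn n (J + 1)) (Om n (2 ^ a)) (accG D' P) (fun s => lv n s.1) a hLvl').1]
      generalize accG D' P s (tabT (J + 1) H) (elG (accG D' P) (tabT (J + 1) H) κ a) = b
      cases b <;> cases κ s <;> rfl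
    unfold dlG exG
    rw [ee, hupd, hupd, Function.update_self, Function.update_self,
      hval _ _ (hO x) (ex1 x), hval _ _ hO₁ e1]
    generalize accG D' P s₀ (tabU (J + 1) H x) (elG (accG D P) (tabU (J + 1) H x) κ a) = b
    generalize accG D' P s₀ (tabT (J + 1) H) (elG (accG D P) (tabT (J + 1) H) κ a) = b'
    cases b <;> cases b' <;> cases κ s₀ <;> simp
  have hMlt : 2 * M < 2 ^ n := by
    have h2n : (0 : ℝ) < 2 ^ n := by positivity
    have e3 : (4 : ℝ) * (((1 : ℕ) : ℝ) * 2 ^ (((1 : ℝ) / 2 - 1 / 2) * n)) = 4 := by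
      rw [sub_self, zero_mul, Real.rpow_zero]; norm_num
    rw [e3] at hfin
    have h6 : √((M : ℝ) / 2 ^ n) < 1 / 12 := by linarith
    have h7 : (M : ℝ) / 2 ^ n < (1 / 12) ^ 2 := by
      rw [← Real.sqrt_lt' (by norm_num)]; exact h6
    rw [div_lt_iff₀ h2n] at h7
    have h8 : (2 * M : ℝ) < 2 ^ n := by nlinarith
    exact_mod_cast h8
  have hgood : ∀ b : Bool, ∃ x : Fin n → Bool, (List.ofFn x).head? = some b ∧
      (List.replicate n false ∈ W.lang (O x) ↔ List.replicate n false ∈ W.lang O₁) := by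
    intro b
    obtain ⟨m, hm⟩ : ∃ m, n = m + 1 := ⟨n - 1, by omega⟩
    let f : (Fin m → Bool) → (Fin n → Bool) := fun y i =>
      (Fin.cons b y : Fin (m + 1) → Bool) (Fin.cast hm i)
    have hf : Function.Injective f := by
      intro y y' h
      have h' : (Fin.cons b y : Fin (m + 1) → Bool) = Fin.cons b y' := by
        funext i
        have := congrFun h (Fin.cast hm.symm i)
        simpa [f] using this
      exact (Fin.cons_injective2 h').2
    have hhead : ∀ y, (List.ofFn (f y)).head? = some b := by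
      intro y
      subst hm
      simp [f]
    by_contra hcon
    push Not at hcon
    have hsub : (univ : Finset (Fin m → Bool)).map ⟨f, hf⟩ ⊆
        univ.filter fun x => ¬ (List.replicate n false ∈ W.lang (O x) ↔
          List.replicate n false ∈ W.lang O₁) := by
      intro x hx
      rw [Finset.mem_map] at hx
      obtain ⟨y, -, rfl⟩ := hx
      rw [mem_filter]
      refine ⟨mem_univ _, fun h => ?_⟩
      have h2 := hcon (f y) (hhead y)
      rcases h2 with ⟨h3, h4⟩ | ⟨h3, h4⟩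
      · exact h4 (h.1 h3)
      · exact h3 (h.2 h4)
    have h3 := (card_le_card hsub).trans hfew
    rw [card_map, card_univ] at h3
    have h4 : Fintype.card (Fin m → Bool) = 2 ^ m := by simp
    rw [h4] at h3
    rw [hm, pow_succ] at hMlt
    omega
  obtain ⟨x₁, hb1, hx1⟩ := hgood true
  obtain ⟨x₀, hb0, hx0⟩ := hgood false
  -- the choice of the row
  have hch : ∃ x, ¬ (List.replicate n false ∈ W.lang (O x) ↔
      List.replicate n false ∈ hlang (J + 1) (O x)) := by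
    by_cases h : List.replicate n false ∈ W.lang O₁
    · refine ⟨x₀, fun hh => ?_⟩
      have h2 := (hlang_iff h7 hNDV hSPC (hO x₀)).1 (hh.1 (hx0.2 h))
      rw [hb0] at h2
      simp at h2
    · refine ⟨x₁, fun hh => ?_⟩
      exact h (hx1.1 (hh.2 ((hlang_iff h7 hNDV hSPC (hO x₁)).2 hb1)))
  obtain ⟨x, hx⟩ := hch
  refine ⟨sdg (J + 1) n (2 ^ a) σ₀ (tabU (J + 1) H x) κ P, n ^ 2 ^ a,
    fun w hw => short_eq h7 hNST h8 hn2 w hw,
    dec_all h7 h8 hσ hDec, fun w hw => sd_other' h7 hNST hw, fun σ' O' he hB hcor => hx ?_⟩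
  have hOO : ∀ w : List Bool, w.length ≤ n ^ 2 ^ a → O' w = O x w :=
    h5 _ σ' _ O' (O x) _ hA hB (hO x) he
  rw [← lang_congr W O' (O x) fun w hw => hOO w (by rw [hWc] at hw; exact hw.trans hc1), hcor]
  unfold hlang
  simp only [Set.mem_ofPred_eq, List.length_replicate]
  refine exists_congr fun u => and_congr_right fun hu => and_congr_right fun _ => ?_
  refine hSPC (J + 1) _ _ u fun w hw => hOO _ ?_
  rw [List.length_cons, hw, hu]
  have : (2 ^ (J + 1 + 1) - 1) * n ≤ 2 ^ (J + 2) * n := Nat.mul_le_mul_right _ (Nat.sub_le _ _)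
  omega

end Pool.Agent.H70.PX
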