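import Pool.Agent.H48.OQ.FMG

/-!
# The formula of a machine
-/

set_option autoImplicit false

namespace Pool.Agent.H70.PX

open Finset Pool.Agent.H6.NB Pool.Agent.H70.OQ Pool.Agent.H48.OQ.FMG

theorem fm_add {V : Type} {S t d : ℕ} (hS : 1 ≤ S) {f : (V → Bool) → Bool} (e : ℕ)
    (h : Fm S t d f) : Fm S t (d + e) f := by
  induction e with
  | zero => exact h
  | succ e ih => exact ⟨1, fun _ => f, fun _ => true, hS, fun _ => ih, fun y => by simp⟩

open Classical in
/-- The formula of the machine `W` on the input `0ⁿ`. -/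
theorem wfm (h1 : T_CLH) (h2 : Pool.Agent.H6.NB.T_COD) (h3 : Pool.Agent.H6.NB.T_LVL)
    (h4 : Pool.Agent.H6.NB.T_FIS) (J' J n a t : ℕ) (o : List Bool → Bool) (W : Machine J)
    (hn : 2 ≤ n) (hm : n ^ W.c + W.c + 1 ≤ t) (s : Om n (2 ^ a))
    (hs : (n ^ W.c + W.c) ^ 2 ≤ s.1.length) :
    ∃ f : (Cg J' n (2 ^ a) → Bool) → Bool, Fm (2 ^ t) t J f ∧
      (∀ y y', (∀ c, LwG (fun s : Om n (2 ^ a) => lv n s.1) (lv n s.1) c → y c = y' c) →
        f y = f y') ∧
      ∀ y, (f y = true ↔ List.replicate n false ∈ W.lang fun w => y (clg J' n (2 ^ a) o w)) := by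
  obtain ⟨Ws, hW1, hW2⟩ := h4.1 (n ^ W.c + W.c)
  have hL : (List.replicate n false).length = n := List.length_replicate
  refine ⟨fun y => decide (Alt (fun w => w.length ≤ n ^ W.c + W.c) true J fun ws =>
    (W.tree (List.replicate n false) ws).eval (fun w => y (clg J' n (2 ^ a) o w)) = true),
    ?_, ?_, ?_⟩
  · exact (alt_fm (V := Cg J' n (2 ^ a)) (fun w => w.length ≤ n ^ W.c + W.c) t Ws
      (hW1.trans (Nat.pow_le_pow_right (by norm_num) hm)) hW2 J
      (fun ws y => (W.tree (List.replicate n false) ws).eval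
        (fun w => y (clg J' n (2 ^ a) o w)) = true) (by
        intro ws hl hws
        refine ⟨cv (clg J' n (2 ^ a) o) (W.tree (List.replicate n false) ws), ?_, fun y => ?_⟩
        · rw [cv_depth]
          have := W.depth_le (List.replicate n false) ws hl (by rw [hL]; exact hws)
          rw [hL] at this
          omega
        · rw [cv_eval])).1
  · intro y y' hy
    simp only [decide_eq_decide]
    refine alt_congr _ J true _ _ (fun ws hl hws => ?_)
    have hsh := W.short (List.replicate n false) ws hl (by rw [hL]; exact hws)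
    rw [hL] at hsh
    rw [evc (W.tree (List.replicate n false) ws) (n ^ W.c + W.c)
      (fun w => y (clg J' n (2 ^ a) o w)) (fun w => y' (clg J' n (2 ^ a) o w)) hsh]
    intro w hw
    exact hy _ (low_clg h1 h3 h2 hn o s w _ hs hw)
  · intro y
    rw [decide_eq_true_eq]
    unfold Machine.lang
    simp only [Set.mem_ofPred_eq, hL]

/-- The language of a machine on the input `0ⁿ` depends only on short strings. -/
theorem lang_congr {J n : ℕ} (W : Machine J) (O O' : List Bool → Bool)
    (h : ∀ w : List Bool, w.length ≤ n ^ W.c + W.c → O w = O' w) :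
    List.replicate n false ∈ W.lang O ↔ List.replicate n false ∈ W.lang O' := by
  have hL : (List.replicate n false).length = n := List.length_replicate
  unfold Machine.lang
  simp only [Set.mem_ofPred_eq, hL]
  refine alt_congr _ J true _ _ (fun ws hl hws => ?_)
  have hsh := W.short (List.replicate n false) ws hl (by rw [hL]; exact hws)
  rw [hL] at hsh
  rw [evc (W.tree (List.replicate n false) ws) (n ^ W.c + W.c) O O' hsh h]

/-- Replace one function of the top level. -/
theorem elG_upd {B Ω : Type} [DecidableEq Ω] {acc acc' : Ω → Gn B Ω} {lev : Ω → ℕ} {h : ℕ}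
    (hEX : T_EXG) (hl : Lvg acc lev h) (hl' : Lvg acc' lev h) (s₀ : Ω)
    (hs : ∀ s, lev s ≤ lev s₀) (ha : ∀ s, s ≠ s₀ → acc' s = acc s) (T : B → Bool)
    (κ : Ω → Bool) : elG acc' T κ h =
      Function.update (elG acc T κ h) s₀ (xor (acc' s₀ T (elG acc T κ h)) (κ s₀)) := by
  symm
  refine (hEX B Ω acc' lev h hl').2.1 T κ _ fun s => ?_
  have hloc : ∀ s, acc' s T (Function.update (elG acc T κ h) s₀
      (xor (acc' s₀ T (elG acc T κ h)) (κ s₀))) = acc' s T (elG acc T κ h) := by
    intro s
    refine hl'.loc s _ _ _ fun s' hs' => ?_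
    have : s' ≠ s₀ := by
      rintro rfl
      exact absurd (hs s) (not_le.2 hs')
    rw [Function.update_of_ne this]
  rw [hloc s]
  by_cases h0 : s = s₀
  · subst h0
    rw [Function.update_self]
  · rw [Function.update_of_ne h0, ha s h0]
    exact (hEX B Ω acc lev h hl).1 T κ s

end Pool.Agent.H70.PX
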